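import Mathlib

/-!
# Module PQ-G2 (for helper36, MP_35f203_lc): the theorem of Rado for vectors
-/

namespace Pool.Agent.Helper36.Pin

open Finset Module

/-- Rado's theorem, with a bound on the total size for the induction. -/
theorem rado_aux {K W ι : Type} [Field K] [AddCommGroup W] [Module K W] [FiniteDimensional K W]
    [DecidableEq ι] (I : Finset ι) (n : ℕ) : ∀ (B : ι → Finset W), ∑ i ∈ I, (B i).card ≤ n →
    (∀ J ⊆ I, J.card ≤ finrank K (Submodule.span K (⋃ i ∈ J, (B i : Set W)))) →
    ∃ y : ι → W, (∀ i ∈ I, y i ∈ B i) ∧ LinearIndependent K (fun i : I => y i) := by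
  classical
  induction n with
  | zero =>
    intro B hn h
    have hI : I = ∅ := by
      by_contra hne
      obtain ⟨i, hi⟩ := Finset.nonempty_iff_ne_empty.mpr hne
      have h0 : ∀ j ∈ I, (B j).card = 0 := by
        intro j hj
        exact (Finset.sum_eq_zero_iff.mp (Nat.le_zero.mp hn)) j hj
      have h1 := h {i} (by simpa using hi)
      have h2 : B i = ∅ := Finset.card_eq_zero.mp (h0 i hi)
      simp [h2] at h1
    subst hI
    refine ⟨fun _ => 0, by simp, ?_⟩
    have : IsEmpty (∅ : Finset ι) := ⟨fun i => Finset.notMem_empty _ i.2⟩
    exact linearIndependent_empty_type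
  | succ n ih =>
    intro B hn h
    by_cases hbig : ∃ i ∈ I, 2 ≤ (B i).card
    · obtain ⟨i, hi, hB⟩ := hbig
      obtain ⟨x, hx, y, hy, hxy⟩ := Finset.one_lt_card.mp hB
      -- the condition after the deletion of an element
      have key : ∀ z ∈ B i, (∀ J ⊆ I, J.card ≤ finrank K (Submodule.span K
            (⋃ j ∈ J, ((Function.update B i ((B i).erase z)) j : Set W)))) →
          ∃ y : ι → W, (∀ i ∈ I, y i ∈ B i) ∧ LinearIndependent K (fun i : I => y i) := by
        intro z hz hJ
        obtain ⟨w, hw, hind⟩ := ih (Function.update B i ((B i).erase z)) (by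
          have hlt : ∑ j ∈ I, (Function.update B i ((B i).erase z) j).card <
              ∑ j ∈ I, (B j).card := by
            apply Finset.sum_lt_sum
            · intro j hj
              by_cases hji : j = i
              · subst hji
                simpa using Finset.card_le_card (Finset.erase_subset z (B j))
              · simp [Function.update_of_ne hji]
            · exact ⟨i, hi, by simpa using Finset.card_lt_card (Finset.erase_ssubset hz)⟩
          omega) hJ
        refine ⟨w, ?_, hind⟩
        intro j hj
        have := hw j hj
        by_cases hji : j = i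
        · subst hji
          simp only [Function.update_self] at this
          exact Finset.mem_of_mem_erase this
        · rwa [Function.update_of_ne hji] at this
      by_cases hx' : ∀ J ⊆ I, J.card ≤ finrank K (Submodule.span K
            (⋃ j ∈ J, ((Function.update B i ((B i).erase x)) j : Set W)))
      · exact key x hx hx'
      by_cases hy' : ∀ J ⊆ I, J.card ≤ finrank K (Submodule.span K
            (⋃ j ∈ J, ((Function.update B i ((B i).erase y)) j : Set W)))
      · exact key y hy hy'
      exfalso
      -- a violated set contains `i`
      have viol : ∀ z ∈ B i, (¬ ∀ J ⊆ I, J.card ≤ finrank K (Submodule.span K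
            (⋃ j ∈ J, ((Function.update B i ((B i).erase z)) j : Set W)))) →
          ∃ J ⊆ I, i ∉ J ∧ finrank K (Submodule.span K
            ((⋃ j ∈ J, (B j : Set W)) ∪ ((B i).erase z : Finset W))) ≤ J.card := by
        intro z hz hv
        push Not at hv
        obtain ⟨J, hJI, hlt⟩ := hv
        have hiJ : i ∈ J := by
          by_contra hiJ
          have : (⋃ j ∈ J, ((Function.update B i ((B i).erase z)) j : Set W)) =
              ⋃ j ∈ J, (B j : Set W) := by
            apply Set.iUnion₂_congr
            intro j hj
            have hji : j ≠ i := fun e => hiJ (e ▸ hj)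
            rw [Function.update_of_ne hji]
          rw [this] at hlt
          have := h J hJI
          omega
        refine ⟨J.erase i, (Finset.erase_subset _ _).trans hJI, Finset.notMem_erase _ _, ?_⟩
        have heq : (⋃ j ∈ J, ((Function.update B i ((B i).erase z)) j : Set W)) =
            (⋃ j ∈ J.erase i, (B j : Set W)) ∪ ((B i).erase z : Finset W) := by
          ext w
          simp only [Set.mem_iUnion, Set.mem_union, Finset.mem_coe, Finset.mem_erase]
          constructor
          · rintro ⟨j, hj, hw⟩
            by_cases hji : j = i
            · subst hji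
              rw [Function.update_self] at hw
              exact Or.inr (Finset.mem_erase.mp hw)
            · rw [Function.update_of_ne hji] at hw
              exact Or.inl ⟨j, ⟨hji, hj⟩, hw⟩
          · rintro (⟨j, ⟨hji, hj⟩, hw⟩ | hw)
            · exact ⟨j, hj, by rwa [Function.update_of_ne hji]⟩
            · exact ⟨i, hiJ, by rw [Function.update_self]; exact Finset.mem_erase.mpr hw⟩
        rw [heq] at hlt
        have := Finset.card_erase_of_mem hiJ
        omega
      obtain ⟨J₁, hJ₁, hi₁, hr₁⟩ := viol x hx hx'
      obtain ⟨J₂, hJ₂, hi₂, hr₂⟩ := viol y hy hy'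
      set X : Submodule K W := Submodule.span K
            ((⋃ j ∈ J₁, (B j : Set W)) ∪ ((B i).erase x : Finset W)) with hX
      set Y : Submodule K W := Submodule.span K
            ((⋃ j ∈ J₂, (B j : Set W)) ∪ ((B i).erase y : Finset W)) with hY
      have hsum := Submodule.finrank_sup_add_finrank_inf_eq X Y
      have h1 : (insert i (J₁ ∪ J₂)).card ≤ finrank K (X ⊔ Y : Submodule K W) := by
        refine (h (insert i (J₁ ∪ J₂)) ?_).trans (Submodule.finrank_mono ?_)
        · exact Finset.insert_subset hi (Finset.union_subset hJ₁ hJ₂)
        · rw [Submodule.span_le]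
          intro w hw
          simp only [Set.mem_iUnion, Finset.mem_coe, Finset.mem_insert, Finset.mem_union] at hw
          obtain ⟨j, hj, hw⟩ := hw
          have hXm : ∀ v, v ∈ ((⋃ j ∈ J₁, (B j : Set W)) ∪ ((B i).erase x : Finset W)) →
              v ∈ (X ⊔ Y : Submodule K W) := fun v hv =>
            (le_sup_left : X ≤ X ⊔ Y) (Submodule.subset_span hv)
          have hYm : ∀ v, v ∈ ((⋃ j ∈ J₂, (B j : Set W)) ∪ ((B i).erase y : Finset W)) →
              v ∈ (X ⊔ Y : Submodule K W) := fun v hv =>
            (le_sup_right : Y ≤ X ⊔ Y) (Submodule.subset_span hv)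
          rcases hj with rfl | hj | hj
          · by_cases hwx : w = x
            · apply hYm
              right
              rw [Finset.mem_coe, Finset.mem_erase]
              exact ⟨by rw [hwx]; exact hxy, hw⟩
            · apply hXm
              right
              rw [Finset.mem_coe, Finset.mem_erase]
              exact ⟨hwx, hw⟩
          · apply hXm
            left
            simp only [Set.mem_iUnion]
            exact ⟨j, hj, hw⟩
          · apply hYm
            left
            simp only [Set.mem_iUnion]
            exact ⟨j, hj, hw⟩
      have h2 : (J₁ ∩ J₂).card ≤ finrank K (X ⊓ Y : Submodule K W) := by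
        refine (h (J₁ ∩ J₂) (Finset.inter_subset_left.trans hJ₁)).trans
          (Submodule.finrank_mono ?_)
        rw [Submodule.span_le]
        intro w hw
        simp only [Set.mem_iUnion, Finset.mem_coe, Finset.mem_inter] at hw
        obtain ⟨j, ⟨hj1, hj2⟩, hw⟩ := hw
        refine ⟨Submodule.subset_span (Or.inl ?_), Submodule.subset_span (Or.inl ?_)⟩
        · simp only [Set.mem_iUnion]
          exact ⟨j, hj1, hw⟩
        · simp only [Set.mem_iUnion]
          exact ⟨j, hj2, hw⟩
      have h3 : (insert i (J₁ ∪ J₂)).card = (J₁ ∪ J₂).card + 1 :=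
        Finset.card_insert_of_notMem (by simp [hi₁, hi₂])
      have h4 := Finset.card_union_add_card_inter J₁ J₂
      omega
    · push Not at hbig
      have hone : ∀ i ∈ I, ∃ w, B i = {w} := by
        intro i hi
        have h1 := h {i} (by simpa using hi)
        have h2 : (B i).Nonempty := by
          rw [Finset.nonempty_iff_ne_empty]
          intro h0
          simp [h0] at h1
        have h3 := hbig i hi
        have h4 := h2.card_pos
        exact Finset.card_eq_one.mp (by omega)
      choose! w hw using hone
      refine ⟨w, fun i hi => by rw [hw i hi]; simp, ?_⟩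
      rw [linearIndependent_iff_card_le_finrank_span]
      have h1 := h I (Finset.Subset.refl I)
      have h2 : (⋃ i ∈ I, (B i : Set W)) = Set.range (fun i : I => w i) := by
        ext v
        simp only [Set.mem_iUnion, Finset.mem_coe, Set.mem_range, Subtype.exists]
        constructor
        · rintro ⟨i, hi, hv⟩
          rw [hw i hi] at hv
          exact ⟨i, hi, (Finset.mem_singleton.mp hv).symm⟩
        · rintro ⟨i, hi, rfl⟩
          exact ⟨i, hi, by rw [hw i hi]; simp⟩
      rw [h2] at h1
      simpa [Set.finrank] using h1

theorem rado {K W ι : Type} [Field K] [AddCommGroup W] [Module K W] [FiniteDimensional K W]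
    [DecidableEq ι] (I : Finset ι) (B : ι → Finset W)
    (h : ∀ J ⊆ I, J.card ≤ finrank K (Submodule.span K (⋃ i ∈ J, (B i : Set W)))) :
    ∃ y : ι → W, (∀ i ∈ I, y i ∈ B i) ∧ LinearIndependent K (fun i : I => y i) :=
  rado_aux I _ B le_rfl h

end Pool.Agent.Helper36.Pin
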