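import Pool.Agent.Helper36.Pin.Defs3

/-!
# Module PQ-H2 (for helper36, MP_35f203_lc): the gadget for linear matroid parity
-/

namespace Pool.Agent.Helper36.Pin

open Finset Module

variable {V : Type} [Fintype V] [DecidableEq V]

/-- The vertex of a line. -/
def vtx (G : SimpleGraph V) : Line G → V
  | Sum.inl (v, _) => v
  | Sum.inr v => v

open Classical in
theorem vtx_mem {G : SimpleGraph V} {U : Finset V} {l : Line G} (h : l ∈ lines G U) :
    vtx G l ∈ U := by
  unfold lines at h
  rw [Finset.mem_filter] at h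
  rcases l with ⟨v, g⟩ | v
  · exact h.2.1
  · exact h.2

open Classical in
theorem at_of_mem {G : SimpleGraph V} {U : Finset V} {v : V} {g : Gen G}
    (h : (Sum.inl (v, g) : Line G) ∈ lines G U) : At G v g := by
  unfold lines at h
  rw [Finset.mem_filter] at h
  exact h.2.2

open Classical in
theorem inl_mem_lines {G : SimpleGraph V} {U : Finset V} {v : V} {g : Gen G} (hv : v ∈ U)
    (h : At G v g) : (Sum.inl (v, g) : Line G) ∈ lines G U := by
  unfold lines
  rw [Finset.mem_filter]
  exact ⟨Finset.mem_univ _, hv, h⟩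

open Classical in
theorem inr_mem_lines {G : SimpleGraph V} {U : Finset V} {v : V} (hv : v ∈ U) :
    (Sum.inr v : Line G) ∈ lines G U := by
  unfold lines
  rw [Finset.mem_filter]
  exact ⟨Finset.mem_univ _, hv⟩

/-- a plane of a vertex contains no further vector of another line -/
theorem not_inr_inl {G : SimpleGraph V} {t : V → ℚ} {c : Gen G → ℚ} {J : Finset (Line G)}
    (hJ : LinearIndependent ℚ (fun i : J × Fin 2 => vec G t c i.1 i.2)) {v : V} {g : Gen G}
    (h1 : (Sum.inr v : Line G) ∈ J) (h2 : (Sum.inl (v, g) : Line G) ∈ J) : False := by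
  have h := hJ.comp (![(⟨Sum.inr v, h1⟩, 0), (⟨Sum.inr v, h1⟩, 1), (⟨Sum.inl (v, g), h2⟩, 1)] :
    Fin 3 → J × Fin 2) (by
      intro i j hij
      fin_cases i <;> fin_cases j <;> simp_all)
  have h3 := Fintype.linearIndependent_iff.mp h ![1, c g, -1] (by
    rw [Fin.sum_univ_three]
    simp only [vec, Function.comp, Matrix.cons_val_zero, Matrix.cons_val_one, Matrix.cons_val]
    module) 0
  simp at h3

/-- three generators at one vertex are dependent -/
theorem not_three {G : SimpleGraph V} {t : V → ℚ} {c : Gen G → ℚ} (hc : Function.Injective c)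
    {J : Finset (Line G)}
    (hJ : LinearIndependent ℚ (fun i : J × Fin 2 => vec G t c i.1 i.2)) {v : V} {g g' g'' : Gen G}
    (h1 : (Sum.inl (v, g) : Line G) ∈ J) (h2 : (Sum.inl (v, g') : Line G) ∈ J)
    (h3 : (Sum.inl (v, g'') : Line G) ∈ J) (n1 : g ≠ g') (n2 : g ≠ g'') (n3 : g' ≠ g'') :
    False := by
  have h := hJ.comp (![(⟨Sum.inl (v, g), h1⟩, 1), (⟨Sum.inl (v, g'), h2⟩, 1),
      (⟨Sum.inl (v, g''), h3⟩, 1)] : Fin 3 → J × Fin 2) (by
      intro i j hij
      fin_cases i <;> fin_cases j <;> simp_all)
  have h4 := Fintype.linearIndependent_iff.mp h ![c g' - c g'', c g'' - c g, c g - c g'] (by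
    rw [Fin.sum_univ_three]
    simp only [vec, Function.comp, Matrix.cons_val_zero, Matrix.cons_val_one, Matrix.cons_val]
    module) 2
  simp only [Matrix.cons_val] at h4
  exact n1 (hc (sub_eq_zero.mp h4))

theorem gvec_inr {G : SimpleGraph V} (t : V → ℚ) (v : V) (g : Gen G) (x : V × Fin 2) :
    gvec G t v g (Sum.inr (Sum.inr x)) = 0 := by
  rcases g with ⟨g, g'⟩ | ⟨X, i⟩
  · simp [gvec, single]
  · simp [gvec, single]

open Classical in
/-- The gadget, for a graph with the property of `feasA_fill_iff`. -/
theorem parity_eq_of (G : SimpleGraph V) (t : V → ℚ) (c : Gen G → ℚ)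
    (hc : Function.Injective c) (U : Finset V) (F : Finset V → Prop)
    (hF : ∀ Z : Finset V, F Z ↔ ∃ y : V → Fin 2 → Gen G, (∀ v ∈ Z, ∀ j, At G v (y v j)) ∧
      LinearIndependent ℚ (fun i : Z × Fin 2 => gvec G t i.1 (y i.1 i.2))) (ν : ℕ)
    (hν : IsGreatest {k | ∃ Z ⊆ U, F Z ∧ Z.card = k} ν) :
    parityNumber (lines G U) (vec G t c) = U.card + ν := by
  apply le_antisymm
  · unfold parityNumber
    apply Finset.sup_le
    intro J hJ
    rw [Finset.mem_filter, Finset.mem_powerset] at hJ
    obtain ⟨hJU, hind⟩ := hJ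
    set fib : V → Finset (Line G) := fun v => J.filter (fun l => vtx G l = v) with hfib
    have hcard : J.card = ∑ v ∈ U, (fib v).card :=
      Finset.card_eq_sum_card_fiberwise (fun l hl => vtx_mem (hJU hl))
    -- the elements of a fibre
    have hmem : ∀ v l, l ∈ fib v → (∃ g, l = Sum.inl (v, g) ∧ l ∈ J) ∨ (l = Sum.inr v ∧ l ∈ J) := by
      intro v l hl
      rw [hfib, Finset.mem_filter] at hl
      rcases l with ⟨w, g⟩ | w
      · left
        have : w = v := hl.2
        subst this
        exact ⟨g, rfl, hl.1⟩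
      · right
        have : w = v := hl.2
        subst this
        exact ⟨rfl, hl.1⟩
    have hle2 : ∀ v, (fib v).card ≤ 2 := by
      intro v
      by_contra hlt
      push Not at hlt
      obtain ⟨a, b, d, ha, hb, hd, hab, had, hbd⟩ := Finset.two_lt_card_iff.mp hlt
      rcases hmem v a ha with ⟨g, rfl, ha'⟩ | ⟨rfl, ha'⟩ <;>
        rcases hmem v b hb with ⟨g', rfl, hb'⟩ | ⟨rfl, hb'⟩
      · rcases hmem v d hd with ⟨g'', rfl, hd'⟩ | ⟨rfl, hd'⟩
        · exact not_three hc hind ha' hb' hd' (fun e => hab (by rw [e])) (fun e => had (by rw [e]))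
            (fun e => hbd (by rw [e]))
        · exact not_inr_inl hind hd' ha'
      · exact not_inr_inl hind hb' ha'
      · exact not_inr_inl hind ha' hb'
      · exact hab rfl
    have htwo : ∀ v, (fib v).card = 2 → ∃ y : Fin 2 → Gen G, y 0 ≠ y 1 ∧
        ∀ j, (Sum.inl (v, y j) : Line G) ∈ J := by
      intro v hv
      obtain ⟨a, b, hab, hfe⟩ := Finset.card_eq_two.mp hv
      have ha : a ∈ fib v := by rw [hfe]; simp
      have hb : b ∈ fib v := by rw [hfe]; simp
      rcases hmem v a ha with ⟨g, rfl, ha'⟩ | ⟨rfl, ha'⟩ <;>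
        rcases hmem v b hb with ⟨g', rfl, hb'⟩ | ⟨rfl, hb'⟩
      · refine ⟨![g, g'], fun e => hab (by simpa using e), ?_⟩
        intro j
        fin_cases j
        · exact ha'
        · exact hb'
      · exact absurd ha' (fun h => not_inr_inl hind hb' h)
      · exact absurd hb' (fun h => not_inr_inl hind ha' h)
      · exact absurd rfl hab
    set Z : Finset V := U.filter (fun v => (fib v).card = 2) with hZ
    have hZF : F Z := by
      rw [hF]
      have hch : ∀ v, ∃ y : Fin 2 → Gen G, (fib v).card = 2 → (y 0 ≠ y 1 ∧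
          ∀ j, (Sum.inl (v, y j) : Line G) ∈ J) := by
        intro v
        by_cases hv : (fib v).card = 2
        · obtain ⟨y, hy⟩ := htwo v hv
          exact ⟨y, fun _ => hy⟩
        · exact ⟨fun _ => Sum.inl (Sum.inl s(v, v), Sum.inl s(v, v)), fun h => absurd h hv⟩
      choose y hy using hch
      have hy' : ∀ v ∈ Z, y v 0 ≠ y v 1 ∧ ∀ j, (Sum.inl (v, y v j) : Line G) ∈ J := by
        intro v hv
        rw [hZ, Finset.mem_filter] at hv
        exact hy v hv.2
      refine ⟨y, fun v hv j => at_of_mem (hJU ((hy' v hv).2 j)), ?_⟩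
      have := hind.comp (fun i : Z × Fin 2 =>
        ((⟨Sum.inl (i.1.1, y i.1 i.2), (hy' i.1.1 i.1.2).2 i.2⟩, 0) : J × Fin 2)) (by
          rintro ⟨⟨v, hv⟩, i⟩ ⟨⟨w, hw⟩, j⟩ hij
          simp only [Prod.mk.injEq, Subtype.mk.injEq, Sum.inl.injEq, and_true] at hij
          obtain ⟨h1, h2⟩ := hij
          subst h1
          have hne := (hy' v hv).1
          have : i = j := by
            fin_cases i <;> fin_cases j
            · rfl
            · exact absurd h2 hne
            · exact absurd h2.symm hne
            · rfl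
          rw [this])
      exact this
    have hZν : Z.card ≤ ν := hν.2 ⟨Z, Finset.filter_subset _ _, hZF, rfl⟩
    calc J.card = ∑ v ∈ U, (fib v).card := hcard
      _ ≤ ∑ v ∈ U, (1 + if (fib v).card = 2 then 1 else 0) := by
          apply Finset.sum_le_sum
          intro v _
          have := hle2 v
          split_ifs with h
          · omega
          · omega
      _ = U.card + Z.card := by
          rw [Finset.sum_add_distrib, Finset.sum_const, smul_eq_mul, mul_one, hZ,
            Finset.card_filter]
      _ ≤ U.card + ν := by omega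
  · obtain ⟨Z, hZU, hZF, hZc⟩ := hν.1
    obtain ⟨y, hAt, hy⟩ := (hF Z).mp hZF
    have hyne : ∀ v ∈ Z, y v 0 ≠ y v 1 := by
      intro v hv he
      have := hy.injective.ne (a₁ := (⟨v, hv⟩, 0)) (a₂ := (⟨v, hv⟩, 1)) (by simp)
      exact this (by simp [he])
    set J : Finset (Line G) := (Finset.univ : Finset (Z × Fin 2)).image
        (fun i => (Sum.inl (i.1.1, y i.1 i.2) : Line G)) ∪ (U \ Z).image Sum.inr with hJ
    have hJm : ∀ l, l ∈ J ↔ (∃ v ∈ Z, ∃ j, l = Sum.inl (v, y v j)) ∨
        ∃ v ∈ U \ Z, l = Sum.inr v := by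
      intro l
      rw [hJ, Finset.mem_union, Finset.mem_image, Finset.mem_image]
      constructor
      · rintro (⟨⟨⟨v, hv⟩, j⟩, -, rfl⟩ | ⟨v, hv, rfl⟩)
        · exact Or.inl ⟨v, hv, j, rfl⟩
        · exact Or.inr ⟨v, hv, rfl⟩
      · rintro (⟨v, hv, j, rfl⟩ | ⟨v, hv, rfl⟩)
        · exact Or.inl ⟨⟨⟨v, hv⟩, j⟩, Finset.mem_univ _, rfl⟩
        · exact Or.inr ⟨v, hv, rfl⟩
    have hJc : J.card = U.card + ν := by
      rw [hJ, Finset.card_union_of_disjoint, Finset.card_image_of_injective,
        Finset.card_image_of_injective _ Sum.inr_injective, Finset.card_sdiff_of_subset hZU]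
      · simp only [Finset.card_univ, Fintype.card_prod, Fintype.card_coe, Fintype.card_fin]
        have := Finset.card_le_card hZU
        omega
      · rintro ⟨⟨v, hv⟩, i⟩ ⟨⟨w, hw⟩, j⟩ hij
        simp only [Sum.inl.injEq, Prod.mk.injEq] at hij
        obtain ⟨h1, h2⟩ := hij
        subst h1
        have hne := hyne v hv
        have : i = j := by
          fin_cases i <;> fin_cases j
          · rfl
          · exact absurd h2 hne
          · exact absurd h2.symm hne
          · rfl
        rw [this]
      · rw [Finset.disjoint_left]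
        intro l hl hl'
        rw [Finset.mem_image] at hl hl'
        obtain ⟨_, _, rfl⟩ := hl
        obtain ⟨_, _, h⟩ := hl'
        simp at h
    rw [← hJc]
    unfold parityNumber
    apply Finset.le_sup (f := Finset.card)
    rw [Finset.mem_filter, Finset.mem_powerset]
    refine ⟨?_, ?_⟩
    · intro l hl
      rcases (hJm l).mp hl with ⟨v, hv, j, rfl⟩ | ⟨v, hv, rfl⟩
      · exact inl_mem_lines (hZU hv) (hAt v hv j)
      · exact inr_mem_lines (Finset.mem_sdiff.mp hv).1
    · set ψ : ((Z × Fin 2) × Fin 2) ⊕ (↥(U \ Z) × Fin 2) → J × Fin 2 := fun s => match s with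
        | Sum.inl i => (⟨Sum.inl (i.1.1.1, y i.1.1 i.1.2),
            (hJm _).mpr (Or.inl ⟨i.1.1.1, i.1.1.2, i.1.2, rfl⟩)⟩, i.2)
        | Sum.inr i => (⟨Sum.inr i.1.1, (hJm _).mpr (Or.inr ⟨i.1.1, i.1.2, rfl⟩)⟩, i.2) with hψ
      have hsurj : Function.Surjective ψ := by
        rintro ⟨⟨l, hl⟩, k⟩
        rcases (hJm l).mp hl with ⟨v, hv, j, rfl⟩ | ⟨v, hv, rfl⟩
        · exact ⟨Sum.inl ((⟨v, hv⟩, j), k), rfl⟩
        · exact ⟨Sum.inr (⟨v, hv⟩, k), rfl⟩
      have hS : LinearIndependent ℚ
          ((fun i : J × Fin 2 => vec G t c i.1 i.2) ∘ ψ) := by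
        rw [Fintype.linearIndependent_iff]
        intro a ha
        -- the coordinates in the planes
        have hev : ∀ x : Coord G, ∑ s, a s * vec G t c (ψ s).1 (ψ s).2 x = 0 := by
          intro x
          have := congrFun ha x
          simpa [Finset.sum_apply] using this
        have hin : ∀ (v : V) (hv : v ∈ Z) (j : Fin 2), a (Sum.inl ((⟨v, hv⟩, j), 1)) = 0 := by
          intro v hv
          have e0 := hev (Sum.inr (Sum.inr (v, 0)))
          have e1 := hev (Sum.inr (Sum.inr (v, 1)))
          simp only [Fintype.sum_sum_type, Fintype.sum_prod_type, Fin.sum_univ_two, hψ, vec,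
            Matrix.cons_val_zero, Matrix.cons_val_one, gvec_inr, Pi.add_apply, Pi.smul_apply,
            single, smul_eq_mul] at e0 e1
          have hz : ∀ x : ↥(U \ Z), v ≠ x.1 := fun x h => (Finset.mem_sdiff.mp x.2).2 (h ▸ hv)
          have h01 : (0 : Fin 2) ≠ 1 := by decide
          simp only [Sum.inr.injEq, Prod.mk.injEq, hz, false_and, if_false, mul_zero, add_zero,
            zero_add, Finset.sum_const_zero, and_true, and_false, h01, h01.symm] at e0 e1
          rw [Fintype.sum_eq_single (⟨v, hv⟩ : Z)] at e0 e1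
          · simp only [if_true, mul_one] at e0 e1
            have hcn : c (y v 0) ≠ c (y v 1) := fun h => hyne v hv (hc h)
            have h0 : a (Sum.inl ((⟨v, hv⟩, 0), 1)) * (c (y v 0) - c (y v 1)) = 0 := by
              linear_combination e1 - c (y v 1) * e0
            have h0' : a (Sum.inl ((⟨v, hv⟩, 0), 1)) = 0 :=
              (mul_eq_zero.mp h0).resolve_right (sub_ne_zero.mpr hcn)
            intro j
            fin_cases j
            · exact h0'
            · show a (Sum.inl ((⟨v, hv⟩, 1), 1)) = 0
              linear_combination e0 - h0'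
          · intro x hx
            have : v ≠ x.1 := fun h => hx (Subtype.ext h.symm)
            simp [this]
          · intro x hx
            have : v ≠ x.1 := fun h => hx (Subtype.ext h.symm)
            simp [this]
        have hout : ∀ (v : V) (hv : v ∈ U \ Z) (k : Fin 2), a (Sum.inr (⟨v, hv⟩, k)) = 0 := by
          intro v hv k
          have e0 := hev (Sum.inr (Sum.inr (v, k)))
          simp only [Fintype.sum_sum_type, Fintype.sum_prod_type, Fin.sum_univ_two, hψ, vec,
            Matrix.cons_val_zero, Matrix.cons_val_one, gvec_inr, Pi.add_apply, Pi.smul_apply,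
            single, smul_eq_mul] at e0
          have hz : ∀ x : Z, v ≠ x.1 := fun x h => (Finset.mem_sdiff.mp hv).2 (h ▸ x.2)
          simp only [Sum.inr.injEq, Prod.mk.injEq, hz, false_and, if_false, mul_zero, add_zero,
            zero_add, Finset.sum_const_zero] at e0
          rw [Fintype.sum_eq_single (⟨v, hv⟩ : ↥(U \ Z))] at e0
          · fin_cases k
            · simpa using e0
            · simpa using e0
          · intro x hx
            have : v ≠ x.1 := fun h => hx (Subtype.ext h.symm)
            simp [this]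
        have hrest : ∀ i : Z × Fin 2, a (Sum.inl (i, 0)) = 0 := by
          apply Fintype.linearIndependent_iff.mp hy
          rw [Fintype.sum_sum_type, Fintype.sum_prod_type] at ha
          have h2 : ∑ x : ↥(U \ Z) × Fin 2, a (Sum.inr x) •
              ((fun i : J × Fin 2 => vec G t c i.1 i.2) ∘ ψ) (Sum.inr x) = 0 := by
            apply Finset.sum_eq_zero
            rintro ⟨⟨v, hv⟩, k⟩ _
            rw [hout v hv k, zero_smul]
          rw [h2, add_zero] at ha
          rw [← ha]
          apply Finset.sum_congr rfl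
          rintro ⟨⟨v, hv⟩, j⟩ _
          rw [Fin.sum_univ_two, hin v hv j, zero_smul, add_zero]
          rfl
        rintro (⟨⟨⟨v, hv⟩, j⟩, k⟩ | ⟨⟨v, hv⟩, k⟩)
        · fin_cases k
          · exact hrest _
          · exact hin v hv j
        · exact hout v hv k
      have := hS.comp (Function.surjInv hsurj) (Function.injective_surjInv hsurj)
      have he : (((fun i : J × Fin 2 => vec G t c i.1 i.2) ∘ ψ) ∘ Function.surjInv hsurj) =
          (fun i : J × Fin 2 => vec G t c i.1 i.2) := by
        funext i
        simp only [Function.comp, Function.surjInv_eq]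
      rw [he] at this
      exact this

end Pool.Agent.Helper36.Pin
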